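import Pool.Agent.Y494.CC.Stm

/-!
# Project CC: antisymmetry of quotients of alternants (helper550)

The method is the one of the starting file `Pool.Agent.H471.CGD` (case `r = 3`).
-/

set_option autoImplicit false

namespace Y494.CC.Anti

open Pool.Agent.H471.CG

variable {r : ℕ}

/-- general principle -/
lemma antisym (w : (Fin r → ℤ) →+ (Fin r → ℤ)) (hinj : Function.Injective w) (s : ℤ)
    (hs : s * s = 1)
    (halt : ∀ m : Fin r → ℤ, AddMonoidAlgebra.mapDomainRingHom ℤ w (alt m) = s • alt m)
    (hne : alt (rho r) ≠ 0) (f : CharRing r) (a b : Fin r → ℤ)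
    (hf : f * alt (rho r) = alt a * alt b) (x : Fin r → ℤ) :
    f.coeff (w x) = s * f.coeff x := by
  have h1 : AddMonoidAlgebra.mapDomainRingHom ℤ w f = s • f := by
    have h2 := congrArg (AddMonoidAlgebra.mapDomainRingHom ℤ w) hf
    rw [map_mul, map_mul, halt, halt, halt, smul_mul_smul_comm, hs, one_smul, ← hf] at h2
    apply mul_right_cancel₀ hne
    rw [smul_mul_assoc, ← h2, mul_smul_comm, smul_smul, hs, one_smul]
  have h3 : (AddMonoidAlgebra.mapDomainRingHom ℤ w f).coeff (w x) = f.coeff x := by
    change (AddMonoidAlgebra.mapDomain w f).coeff (w x) = f.coeff x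
    exact Finsupp.mapDomain_apply hinj _ _
  have h4 : (s • f).coeff (w x) = s * f.coeff (w x) := by
    rw [AddMonoidAlgebra.coeff_smul_apply, smul_eq_mul]
  rw [h1, h4] at h3
  rw [← h3, ← mul_assoc, hs, one_mul]

/-- composition with a permutation -/
def permHom (σ : Equiv.Perm (Fin r)) : (Fin r → ℤ) →+ (Fin r → ℤ) where
  toFun x i := x (σ i)
  map_zero' := rfl
  map_add' _ _ := rfl

/-- change of the sign of a coordinate -/
def negHom (i : Fin r) : (Fin r → ℤ) →+ (Fin r → ℤ) where
  toFun x := Function.update x i (-x i)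
  map_zero' := by
    funext j
    by_cases h : j = i
    · subst h
      rw [Function.update_self]
      rfl
    · rw [Function.update_of_ne h]
  map_add' x y := by
    funext j
    by_cases h : j = i
    · subst h
      rw [Function.update_self, Pi.add_apply, Pi.add_apply, Function.update_self,
        Function.update_self, neg_add]
    · rw [Function.update_of_ne h, Pi.add_apply, Pi.add_apply, Function.update_of_ne h,
        Function.update_of_ne h]

lemma map_xp_perm (σ : Equiv.Perm (Fin r)) (i : Fin r) (k : ℤ) :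
    AddMonoidAlgebra.mapDomainRingHom ℤ (permHom σ) (xp i k) = xp (σ.symm i) k := by
  unfold xp
  change AddMonoidAlgebra.mapDomain _ _ = _
  rw [AddMonoidAlgebra.mapDomain_single]
  congr 1
  ext j
  change Pi.single (M := fun _ => ℤ) i k (σ j) = Pi.single (M := fun _ => ℤ) (σ.symm i) k j
  by_cases h : σ j = i
  · subst h; simp
  · rw [Pi.single_eq_of_ne h, Pi.single_eq_of_ne]
    rintro rfl; simp at h

lemma map_xp_neg (l i : Fin r) (k : ℤ) :
    AddMonoidAlgebra.mapDomainRingHom ℤ (negHom l) (xp i k) = xp i (if i = l then -k else k) := by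
  unfold xp
  change AddMonoidAlgebra.mapDomain _ _ = _
  rw [AddMonoidAlgebra.mapDomain_single]
  congr 1
  funext j
  change Function.update (Pi.single (M := fun _ => ℤ) i k) l
    (-(Pi.single (M := fun _ => ℤ) i k l)) j = _
  by_cases hl : i = l
  · subst hl
    rw [if_pos rfl, Pi.single_eq_same]
    by_cases hj : j = i
    · subst hj
      rw [Function.update_self, Pi.single_eq_same]
    · rw [Function.update_of_ne hj, Pi.single_eq_of_ne hj, Pi.single_eq_of_ne hj]
  · rw [if_neg hl, Pi.single_eq_of_ne (Ne.symm hl), neg_zero]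
    by_cases hj : j = l
    · subst hj
      rw [Function.update_self, Pi.single_eq_of_ne (Ne.symm hl)]
    · rw [Function.update_of_ne hj]

lemma alt_perm (σ : Equiv.Perm (Fin r)) (m : Fin r → ℤ) :
    AddMonoidAlgebra.mapDomainRingHom ℤ (permHom σ) (alt m) =
      ((Equiv.Perm.sign σ : ℤˣ) : ℤ) • alt m := by
  unfold alt
  rw [RingHom.map_det]
  have h1 : (AddMonoidAlgebra.mapDomainRingHom ℤ (permHom σ)).mapMatrix
      (Matrix.of fun i j => xp i (m j) - xp i (-m j)) =
      (Matrix.of fun i j => xp i (m j) - xp i (-m j)).submatrix σ.symm id := by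
    ext i j
    rw [RingHom.mapMatrix_apply, Matrix.map_apply, Matrix.submatrix_apply, Matrix.of_apply,
      Matrix.of_apply, map_sub, map_xp_perm, map_xp_perm]
    rfl
  rw [h1, Matrix.det_permute, Equiv.Perm.sign_symm, zsmul_eq_mul]

lemma alt_neg (l : Fin r) (m : Fin r → ℤ) :
    AddMonoidAlgebra.mapDomainRingHom ℤ (negHom l) (alt m) = (-1 : ℤ) • alt m := by
  unfold alt
  rw [RingHom.map_det]
  have h1 : (AddMonoidAlgebra.mapDomainRingHom ℤ (negHom l)).mapMatrix
      (Matrix.of fun i j => xp i (m j) - xp i (-m j)) =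
      Matrix.of fun i j => (if i = l then (-1 : CharRing r) else 1) *
        (Matrix.of fun i j => xp i (m j) - xp i (-m j)) i j := by
    ext i j
    rw [RingHom.mapMatrix_apply, Matrix.map_apply, Matrix.of_apply,
      Matrix.of_apply, Matrix.of_apply, map_sub, map_xp_neg, map_xp_neg]
    split_ifs with h
    · rw [neg_neg, neg_one_mul, neg_sub]
    · rw [one_mul]
  rw [h1, Matrix.det_mul_column]
  have h2 : (∏ i, (if i = l then (-1 : CharRing r) else 1)) = -1 := by
    rw [Finset.prod_ite_eq']
    simp
  rw [h2, neg_one_smul, neg_one_mul]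

theorem perm_case (σ : Equiv.Perm (Fin r)) (hne : alt (rho r) ≠ 0) (f : CharRing r)
    (a b : Fin r → ℤ) (hf : f * alt (rho r) = alt a * alt b) (x : Fin r → ℤ) :
    f.coeff (x ∘ σ) = ((Equiv.Perm.sign σ : ℤˣ) : ℤ) * f.coeff x := by
  refine antisym (permHom σ) ?_ _ ?_ (alt_perm σ) hne f a b hf x
  · intro x y h
    funext i
    have := congrFun h (σ.symm i)
    change x (σ (σ.symm i)) = y (σ (σ.symm i)) at this
    rwa [σ.apply_symm_apply] at this
  · rw [← Units.val_mul, Int.units_mul_self, Units.val_one]

theorem neg_case (l : Fin r) (hne : alt (rho r) ≠ 0) (f : CharRing r)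
    (a b : Fin r → ℤ) (hf : f * alt (rho r) = alt a * alt b) (x : Fin r → ℤ) :
    f.coeff (Function.update x l (-x l)) = - f.coeff x := by
  have h := antisym (negHom l) ?_ (-1) (by norm_num) (alt_neg l) hne f a b hf x
  · rw [neg_one_mul] at h
    exact h
  · intro x y h
    change Function.update x l (-x l) = Function.update y l (-y l) at h
    funext i
    have := congrFun h i
    by_cases hi : i = l
    · subst hi
      rw [Function.update_self, Function.update_self, neg_inj] at this
      exact this
    · rwa [Function.update_of_ne hi, Function.update_of_ne hi] at this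

theorem main : Y494.CC.S_ANTI := fun _ f a b hne hf =>
  ⟨fun σ x => perm_case σ hne f a b hf x, fun l x => neg_case l hne f a b hf x⟩

end Y494.CC.Anti
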