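import Pool.Agent.Y494.CC.Stm

set_option autoImplicit false

/-!
# Coefficients of alternants at strictly dominant weights, type `C_r`
(job CC-COEF, project of helper494; proof by helper43)
-/

namespace Y494.CC.Coef

open Pool.Agent.H471.CG

lemma coeff_mul_xp {r : ℕ} (f : CharRing r) (i : Fin r) (k : ℤ) (b : Fin r → ℤ) :
    (f * xp i k).coeff b = f.coeff (b + -Pi.single i k) := by
  unfold xp
  rw [AddMonoidAlgebra.coeff_mul_single_apply, mul_one]

lemma coeff_prod {r : ℕ} (σ : Equiv.Perm (Fin r)) (a : Fin r → ℤ) (ha : ∀ i, 0 < a i)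
    (S : Finset (Fin r)) : ∀ b : Fin r → ℤ, (∀ i ∈ S, 0 < b (σ i)) →
    (∏ i ∈ S, (xp (σ i) (a i) - xp (σ i) (-a i)) : CharRing r).coeff b =
      if b = ∑ i ∈ S, Pi.single (σ i) (a i) then 1 else 0 := by
  classical
  induction S using Finset.induction_on with
  | empty =>
    intro b _
    rw [Finset.prod_empty, Finset.sum_empty, AddMonoidAlgebra.one_def,
      AddMonoidAlgebra.coeff_single, Finsupp.single_apply]
    simp only [eq_comm]
  | insert i0 S hi0 ih =>
    intro b hb
    rw [Finset.prod_insert hi0, Finset.sum_insert hi0, mul_comm, mul_sub,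
      AddMonoidAlgebra.coeff_sub, Finsupp.sub_apply, coeff_mul_xp, coeff_mul_xp]
    have hne : ∀ i ∈ S, σ i ≠ σ i0 := by
      intro i hi h
      exact hi0 (σ.injective h ▸ hi)
    have h1 : ∀ (k : ℤ), ∀ i ∈ S, 0 < (b + -Pi.single (σ i0) k : Fin r → ℤ) (σ i) := by
      intro k i hi
      have := hb i (Finset.mem_insert_of_mem hi)
      simpa [Pi.single_eq_of_ne (hne i hi)] using this
    rw [ih _ (h1 _), ih _ (h1 _)]
    have h2 : ¬ (b + -Pi.single (σ i0) (-a i0) = ∑ i ∈ S, Pi.single (σ i) (a i)) := by
      intro h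
      have h3 := congrFun h (σ i0)
      rw [Finset.sum_apply] at h3
      rw [Finset.sum_eq_zero (fun i hi => Pi.single_eq_of_ne (hne i hi).symm _)] at h3
      have h4 := hb i0 (Finset.mem_insert_self _ _)
      have h5 := ha i0
      simp at h3
      omega
    rw [if_neg h2, sub_zero]
    congr 1
    apply propext
    constructor
    · intro h
      rw [← h]
      abel
    · intro h
      rw [h]
      abel

lemma perm_eq_one {r : ℕ} (a b : Fin r → ℤ) (ha : SD a) (hb : SD b) (σ : Equiv.Perm (Fin r))
    (h : ∀ i, b (σ i) = a i) : σ = 1 := by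
  have hm : StrictMono σ := by
    intro i j hij
    by_contra hcon
    rw [not_lt] at hcon
    have h1 := ha.1 i j hij
    rw [← h, ← h] at h1
    rcases hcon.lt_or_eq with h2 | h2
    · have := hb.1 _ _ h2
      omega
    · rw [h2] at h1
      omega
  have h2 : hm.orderIsoOfSurjective σ σ.surjective = OrderIso.refl (Fin r) :=
    Subsingleton.elim _ _
  apply Equiv.ext
  intro i
  have h3 := DFunLike.congr_fun h2 i
  simpa using h3

theorem main : S_COEF := by
  classical
  intro r a b ha hb
  have hterm : ∀ σ : Equiv.Perm (Fin r),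
      (∏ i, (xp (σ i) (a i) - xp (σ i) (-a i)) : CharRing r).coeff b =
      if ∀ i, b (σ i) = a i then 1 else 0 := by
    intro σ
    rw [coeff_prod σ a ha.2 Finset.univ b (fun i _ => hb.2 _)]
    congr 1
    apply propext
    have hs : ∀ i, (∑ j, Pi.single (σ j) (a j) : Fin r → ℤ) (σ i) = a i := by
      intro i
      rw [Finset.sum_apply, Finset.sum_eq_single i]
      · simp
      · intro j _ hji
        exact Pi.single_eq_of_ne (fun h => hji (σ.injective h).symm) _
      · intro h
        exact absurd (Finset.mem_univ i) h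
    constructor
    · intro h i
      rw [h, hs]
    · intro h
      ext j
      obtain ⟨i, rfl⟩ := σ.surjective j
      rw [hs, h]
  unfold alt
  rw [Matrix.det_apply, AddMonoidAlgebra.coeff_sum, Finsupp.finsetSum_apply,
    Finset.sum_eq_single 1]
  · rw [Equiv.Perm.sign_one, one_smul]
    have h1 := hterm 1
    simp only [Matrix.of_apply]
    rw [h1]
    congr 1
    apply propext
    constructor
    · intro h
      ext i
      exact (h i).symm
    · intro h i
      rw [h]
      rfl
  · intro σ _ hσ
    have h1 := hterm σ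
    rw [if_neg (fun h => hσ (perm_eq_one a b ha hb σ h))] at h1
    simp only [Matrix.of_apply]
    rcases Int.units_eq_one_or (Equiv.Perm.sign σ) with h2 | h2
    · rw [h2, one_smul, h1]
    · rw [h2, Units.neg_smul, one_smul, AddMonoidAlgebra.coeff_neg, Finsupp.neg_apply, h1, neg_zero]
  · intro h
    exact absurd (Finset.mem_univ _) h

end Y494.CC.Coef
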