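import Pool.Agent.H471.CGDefs

set_option autoImplicit false

/-!
# Stretched Clebsch-Gordan coefficients of type `C_r`, all `r ≥ 3`: statements of the parts
-/

namespace Y494.CC

open Pool.Agent.H471.CG

/-- strictly dominant weights: `a_1 > a_2 > ⋯ > a_r > 0` -/
def SD {r : ℕ} (a : Fin r → ℤ) : Prop := (∀ i j, i < j → a j < a i) ∧ ∀ i, 0 < a i

/-- antisymmetric elements of the group ring -/
def AS {r : ℕ} (f : CharRing r) : Prop :=
  (∀ (σ : Equiv.Perm (Fin r)) (x : Fin r → ℤ),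
    f.coeff (x ∘ σ) = (Equiv.Perm.sign σ : ℤ) * f.coeff x) ∧
  ∀ (i : Fin r) (x : Fin r → ℤ), f.coeff (Function.update x i (-x i)) = - f.coeff x

/-- the Weyl denominator divides all alternants -/
def S_DIV : Prop := ∀ (r : ℕ) (n : Fin r → ℕ), alt (rho r) ∣ alt (fun i => (n i : ℤ))

/-- coefficients of alternants at strictly dominant weights -/
def S_COEF : Prop := ∀ (r : ℕ) (a b : Fin r → ℤ), SD a → SD b →
  (alt a).coeff b = if a = b then 1 else 0

/-- quotients of products of alternants by the Weyl denominator are antisymmetric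
(in particular, with `b = ρ` and `f = alt a`, alternants are) -/
def S_ANTI : Prop := ∀ (r : ℕ) (f : CharRing r) (a b : Fin r → ℤ), alt (rho r) ≠ 0 →
  f * alt (rho r) = alt a * alt b → AS f

/-- an antisymmetric element is determined by its coefficients at strictly dominant weights -/
def S_ZERO : Prop := ∀ (r : ℕ) (f : CharRing r), AS f → (∀ x, SD x → f.coeff x = 0) → f = 0

/-- leading coefficients of alternants with respect to the first variable -/
def S_TOP : Prop := ∀ (r : ℕ) (A : ℤ) (a : Fin r → ℤ), 0 < A → (∀ i, a i < A) → (∀ i, 0 < a i) →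
  (∀ (k : ℤ) (y : Fin r → ℤ), A < k → (alt (Fin.cons A a : Fin (r + 1) → ℤ)).coeff
      (Fin.cons k y : Fin (r + 1) → ℤ) = 0) ∧
  ∀ y : Fin r → ℤ, (alt (Fin.cons A a : Fin (r + 1) → ℤ)).coeff
      (Fin.cons A y : Fin (r + 1) → ℤ) = (alt a).coeff y

/-- leading coefficients of products with respect to the first variable -/
def S_MUL : Prop := ∀ (r : ℕ) (f g : CharRing (r + 1)) (f' g' : CharRing r) (p q : ℤ),
  (∀ (k : ℤ) (y : Fin r → ℤ), p < k → f.coeff (Fin.cons k y : Fin (r + 1) → ℤ) = 0) →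
  (∀ (k : ℤ) (y : Fin r → ℤ), q < k → g.coeff (Fin.cons k y : Fin (r + 1) → ℤ) = 0) →
  (∀ y : Fin r → ℤ, f.coeff (Fin.cons p y : Fin (r + 1) → ℤ) = f'.coeff y) →
  (∀ y : Fin r → ℤ, g.coeff (Fin.cons q y : Fin (r + 1) → ℤ) = g'.coeff y) →
  (∀ (k : ℤ) (y : Fin r → ℤ), p + q < k →
    (f * g).coeff (Fin.cons k y : Fin (r + 1) → ℤ) = 0) ∧
  ∀ y : Fin r → ℤ, (f * g).coeff (Fin.cons (p + q) y : Fin (r + 1) → ℤ) = (f' * g').coeff y

end Y494.CC
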