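import Pool.Agent.H471.CGA
import Pool.Agent.Y494.CC.Stm

/-!
# The Weyl denominator of type `C_r` divides all alternants
-/

set_option autoImplicit false

namespace Y494.CC.Div

open Polynomial Pool.Agent.H471.CG

/-- divided differences -/
lemma exists_diff {A : Type*} [CommRing A] (f : A[X]) (a : A) :
    ∃ g : A[X], ∀ b, f.eval b = f.eval a + (b - a) * g.eval b := by
  have h1 : (X - C a) ∣ f - C (f.eval a) := by
    rw [dvd_iff_isRoot]; simp
  obtain ⟨g, hg⟩ := h1
  refine ⟨g, fun b => ?_⟩
  have h2 := congrArg (eval b) hg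
  simp only [eval_sub, eval_C, eval_mul, eval_X] at h2
  rw [← h2]; ring

/-- the Vandermonde product divides the determinants of values of polynomials -/
lemma det_dvd {A : Type*} [CommRing A] (r : ℕ) : ∀ (p : Fin r → A[X]) (y : Fin r → A),
    (∏ i, ∏ j ∈ Finset.Ioi i, (y j - y i)) ∣
      Matrix.det (Matrix.of fun i j => (p j).eval (y i)) := by
  induction r with
  | zero => intro p y; simp
  | succ r ih =>
    intro p y
    choose q hq using fun j => exists_diff (p j) (y 0)
    have h1 : Matrix.det (Matrix.of fun i j => (p j).eval (y i)) =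
        Matrix.det (Matrix.of fun (i j : Fin (r + 1)) =>
          Fin.cases (motive := fun _ => A) ((p j).eval (y 0))
            (fun i' => (y i'.succ - y 0) * (q j).eval (y i'.succ)) i) := by
      refine Matrix.det_eq_of_forall_row_eq_smul_add_const
        (fun i => Fin.cases (motive := fun _ => A) 0 (fun _ => 1) i) 0 rfl ?_
      intro i j
      refine Fin.cases ?_ (fun i' => ?_) i
      · simp
      · simp only [Matrix.of_apply, Fin.cases_succ, Fin.cases_zero]
        rw [hq j]
        ring
    rw [h1, Matrix.det_succ_row_zero, Fin.prod_univ_succ, Fin.prod_Ioi_zero]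
    refine Finset.dvd_sum fun j _ => ?_
    refine Dvd.dvd.mul_left ?_ _
    have h2 : ((Matrix.of fun (i j : Fin (r + 1)) =>
          Fin.cases (motive := fun _ => A) ((p j).eval (y 0))
            (fun i' => (y i'.succ - y 0) * (q j).eval (y i'.succ)) i).submatrix Fin.succ
              j.succAbove) =
        Matrix.of fun (i j' : Fin r) => (y i.succ - y 0) *
          (Matrix.of fun (i j' : Fin r) => (q (j.succAbove j')).eval (y i.succ)) i j' := by
      ext i j'
      simp
    rw [h2, Matrix.det_mul_column]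
    refine mul_dvd_mul_left _ ?_
    simp only [Fin.prod_Ioi_succ]
    exact ih (fun j' => q (j.succAbove j')) (fun i => y i.succ)

lemma S_deg (n : ℕ) : (S (n + 1)).Monic ∧ (S (n + 1)).natDegree = n ∧ (S n).natDegree ≤ n := by
  induction n with
  | zero => exact ⟨monic_one, natDegree_one, by simp [S]⟩
  | succ n ih =>
    obtain ⟨h1, h2, h3⟩ := ih
    have h4 : (X * S (n + 1)).natDegree = n + 1 := by
      rw [natDegree_X_mul h1.ne_zero, h2]
    have h5 : (X * S (n + 1)).Monic := monic_X.mul h1
    have h6 : (S n).natDegree < (X * S (n + 1)).natDegree := by omega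
    refine ⟨?_, ?_, by omega⟩
    · change (X * S (n + 1) - S n).Monic
      exact h5.sub_of_left (degree_lt_degree h6)
    · change (X * S (n + 1) - S n).natDegree = n + 1
      rw [natDegree_sub_eq_left_of_natDegree_lt h6, h4]

/-- the alternant in terms of the Chebyshev polynomials -/
lemma alt_eq {r : ℕ} (n : Fin r → ℕ) : alt (fun i => (n i : ℤ)) =
    (∏ i, (xp i 1 - xp i (-1))) * Matrix.det (Matrix.of fun i j : Fin r =>
        ((S (n j)).map (Int.castRingHom (CharRing r))).eval (xp i 1 + xp i (-1))) := by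
  rw [← Matrix.det_mul_column]
  unfold alt
  congr 1
  ext i j
  simp only [Matrix.of_apply]
  rw [xp_nat, xp_neg_nat, S_aeval _ _ (xp_mul_neg i 1), aeval_def, eval_map]
  rfl

lemma rho_eq (r : ℕ) : rho r = fun j : Fin r => (((Fin.rev j : ℕ) + 1 : ℕ) : ℤ) := by
  funext j
  have := j.isLt
  simp only [rho, Fin.val_rev]
  omega

lemma alt_rho_eq (r : ℕ) : alt (rho r) = (∏ i, (xp i 1 - xp i (-1))) *
    (((Equiv.Perm.sign (Fin.revPerm (n := r)) : ℤ) : CharRing r) *
      ∏ i : Fin r, ∏ j ∈ Finset.Ioi i, ((xp j 1 + xp j (-1)) - (xp i 1 + xp i (-1)))) := by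
  rw [rho_eq, alt_eq]
  congr 1
  have h1 : (Matrix.of fun i j : Fin r =>
        ((S ((Fin.rev j : ℕ) + 1)).map (Int.castRingHom (CharRing r))).eval
          (xp i 1 + xp i (-1))) = (Matrix.of fun i j : Fin r =>
        ((S ((j : ℕ) + 1)).map (Int.castRingHom (CharRing r))).eval
          (xp i 1 + xp i (-1))).submatrix id Fin.revPerm := by
    ext i j
    simp
  rw [h1, Matrix.det_permute', ← Matrix.det_vandermonde]
  congr 1
  rw [← Matrix.det_eval_matrixOfPolynomials_eq_det_vandermonde
    (fun i : Fin r => xp i 1 + xp i (-1))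
    (fun j : Fin r => (S ((j : ℕ) + 1)).map (Int.castRingHom (CharRing r)))]
  · intro j
    rw [(S_deg j).1.natDegree_map, (S_deg j).2.1]
  · intro j
    exact (S_deg j).1.map _

theorem main : Y494.CC.S_DIV := by
  intro r n
  obtain ⟨q, hq⟩ := det_dvd r (fun j => (S (n j)).map (Int.castRingHom (CharRing r)))
    (fun i => xp i 1 + xp i (-1))
  rw [alt_rho_eq, alt_eq, hq]
  refine mul_dvd_mul_left _ ?_
  have hs : ((Equiv.Perm.sign (Fin.revPerm (n := r)) : ℤ) : CharRing r) *
      ((Equiv.Perm.sign (Fin.revPerm (n := r)) : ℤ) : CharRing r) = 1 := by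
    rw [← Int.cast_mul, ← Units.val_mul, Int.units_mul_self, Units.val_one, Int.cast_one]
  refine ⟨((Equiv.Perm.sign (Fin.revPerm (n := r)) : ℤ) : CharRing r) * q, ?_⟩
  rw [mul_mul_mul_comm, hs, one_mul]

end Y494.CC.Div
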