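import Pool.Agent.Y494.CC.Stm

set_option autoImplicit false

/-!
# Leading coefficients of products with respect to the first variable
-/

namespace Y494.CC.Mul

open Pool.Agent.H471.CG

theorem cm {r : ℕ} (f g : CharRing r) (x : Fin r → ℤ) :
    (f * g).coeff x = ∑ a ∈ f.coeff.support, f.coeff a * g.coeff (-a + x) := by
  rw [AddMonoidAlgebra.coeff_mul_apply_left]
  rfl

theorem cons_sub {r : ℕ} (k l : ℤ) (y z : Fin r → ℤ) :
    -(Fin.cons k y : Fin (r + 1) → ℤ) + Fin.cons l z = Fin.cons (l - k) (-y + z) := by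
  funext i
  refine Fin.cases ?_ (fun j => ?_) i
  · show -k + l = l - k
    ring
  · rfl

theorem ex_cons {r : ℕ} (a : Fin (r + 1) → ℤ) :
    ∃ (k : ℤ) (y : Fin r → ℤ), a = (Fin.cons k y : Fin (r + 1) → ℤ) :=
  ⟨a 0, Fin.tail a, (Fin.cons_self_tail a).symm⟩

theorem main : Y494.CC.S_MUL := by
  classical
  intro r f g f' g' p q hf hg hf' hg'
  constructor
  · intro k y hk
    rw [cm]
    refine Finset.sum_eq_zero fun a _ => ?_
    obtain ⟨l, z, rfl⟩ := ex_cons a
    rcases le_or_gt l p with h | h
    · rw [cons_sub, hg _ _ (by linarith), mul_zero]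
    · rw [hf _ _ h, zero_mul]
  · intro y
    rw [cm, cm]
    have h1 : ∑ a ∈ f'.coeff.support, f'.coeff a * g'.coeff (-a + y) =
        ∑ b ∈ f'.coeff.support.image (fun a => (Fin.cons p a : Fin (r + 1) → ℤ)),
          f.coeff b * g.coeff (-b + (Fin.cons (p + q) y : Fin (r + 1) → ℤ)) := by
      rw [Finset.sum_image]
      · refine Finset.sum_congr rfl fun a _ => ?_
        have e : p + q - p = q := by ring
        rw [cons_sub, e, hf', hg']
      · intro a _ b _ h
        exact Fin.cons_right_injective (α := fun _ => ℤ) p h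
    rw [h1]
    symm
    refine Finset.sum_subset ?_ ?_
    · intro b hb
      obtain ⟨a, ha, rfl⟩ := Finset.mem_image.1 hb
      rw [Finsupp.mem_support_iff] at ha ⊢
      rwa [hf']
    · intro b hb hb2
      obtain ⟨l, z, rfl⟩ := ex_cons b
      rcases lt_trichotomy l p with h | h | h
      · rw [cons_sub, hg _ _ (by linarith), mul_zero]
      · exfalso
        subst h
        apply hb2
        refine Finset.mem_image.2 ⟨z, ?_, rfl⟩
        rw [Finsupp.mem_support_iff] at hb ⊢
        rwa [← hf']
      · rw [hf _ _ h, zero_mul]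

end Y494.CC.Mul
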