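import Pool.Agent.Y494.CC.Stm

/-!
# Project CC, job TOP: the leading coefficient of an alternant in the first variable (helper909)
-/

set_option autoImplicit false

namespace Y494.CC.Top

open Pool.Agent.H471.CG

/-- the inclusion of the lattice `ℤ ^ r` in `ℤ ^ (r + 1)` as the set of vectors with first
coordinate zero -/
def ih (r : ℕ) : (Fin r → ℤ) →+ (Fin (r + 1) → ℤ) where
  toFun y := Fin.cons 0 y
  map_zero' := by
    funext i
    refine Fin.cases ?_ (fun i => ?_) i
    · rfl
    · rfl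
  map_add' x y := by
    funext i
    refine Fin.cases ?_ (fun i => ?_) i
    · simp
    · simp

lemma ih_apply {r : ℕ} (y : Fin r → ℤ) : ih r y = Fin.cons 0 y := rfl

lemma ih_injective (r : ℕ) : Function.Injective (ih r) := by
  intro x y h
  rw [ih_apply, ih_apply] at h
  exact (Fin.cons_injective2 h).2

/-- the corresponding homomorphism of group rings -/
noncomputable def io (r : ℕ) : CharRing r →+* CharRing (r + 1) :=
  AddMonoidAlgebra.mapDomainRingHom ℤ (ih r)

lemma io_xp {r : ℕ} (i : Fin r) (k : ℤ) : io r (xp i k) = xp i.succ k := by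
  unfold io xp
  rw [AddMonoidAlgebra.mapDomainRingHom_apply, AddMonoidAlgebra.mapDomain_single]
  congr 1
  rw [ih_apply]
  funext j
  refine Fin.cases ?_ (fun j => ?_) j
  · simp
  · rw [Fin.cons_succ]
    by_cases h : i = j
    · subst h
      simp
    · rw [Pi.single_eq_of_ne (Ne.symm h), Pi.single_eq_of_ne]
      intro h2
      exact h (Fin.succ_injective _ h2).symm

lemma io_coeff {r : ℕ} (g : CharRing r) (k : ℤ) (y : Fin r → ℤ) :
    (io r g).coeff (Fin.cons k y : Fin (r + 1) → ℤ) = if k = 0 then g.coeff y else 0 := by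
  have h1 : (io r g).coeff = Finsupp.mapDomain (ih r) g.coeff := rfl
  rw [h1]
  split_ifs with h
  · subst h
    exact Finsupp.mapDomain_apply (ih_injective r) g.coeff y
  · apply Finsupp.mapDomain_of_notMem_range
    rintro ⟨z, hz⟩
    rw [ih_apply] at hz
    exact h (Fin.cons_injective2 hz).1.symm

lemma xp_io_coeff {r : ℕ} (m : ℤ) (g : CharRing r) (k : ℤ) (y : Fin r → ℤ) :
    (xp (0 : Fin (r + 1)) m * io r g).coeff (Fin.cons k y : Fin (r + 1) → ℤ) =
      if k = m then g.coeff y else 0 := by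
  have h1 : -(Pi.single (0 : Fin (r + 1)) m : Fin (r + 1) → ℤ) + (Fin.cons k y : Fin (r + 1) → ℤ) =
      (Fin.cons (k - m) y : Fin (r + 1) → ℤ) := by
    funext i
    refine Fin.cases ?_ (fun i => ?_) i
    · simp only [Pi.add_apply, Pi.neg_apply, Pi.single_eq_same, Fin.cons_zero]
      ring
    · simp
  unfold xp
  rw [AddMonoidAlgebra.coeff_single_mul_apply, one_mul, h1, io_coeff]
  by_cases h : k = m
  · rw [if_pos h, if_pos (by omega)]
  · rw [if_neg h, if_neg (by omega)]

lemma alt_expand {r : ℕ} (c : Fin (r + 1) → ℤ) : alt c = ∑ j : Fin (r + 1),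
    (xp 0 (c j) * io r ((-1) ^ (j : ℕ) * alt (fun l => c (j.succAbove l))) -
      xp 0 (-c j) * io r ((-1) ^ (j : ℕ) * alt (fun l => c (j.succAbove l)))) := by
  have h1 : alt c = ∑ j : Fin (r + 1), (-1) ^ (j : ℕ) * (xp 0 (c j) - xp 0 (-c j)) *
      ((Matrix.of fun i j => xp i (c j) - xp i (-c j) : Matrix (Fin (r + 1)) (Fin (r + 1))
        (CharRing (r + 1))).submatrix Fin.succ j.succAbove).det := by
    unfold alt
    rw [Matrix.det_succ_row_zero]
    rfl
  rw [h1]
  refine Finset.sum_congr rfl fun j _ => ?_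
  have h2 : ((Matrix.of fun i j => xp i (c j) - xp i (-c j) : Matrix (Fin (r + 1)) (Fin (r + 1))
      (CharRing (r + 1))).submatrix Fin.succ j.succAbove).det =
      io r (alt (fun l => c (j.succAbove l))) := by
    unfold alt
    rw [RingHom.map_det]
    congr 1
    ext1 i l
    simp only [Matrix.submatrix_apply, Matrix.of_apply, RingHom.mapMatrix_apply,
      Matrix.map_apply, map_sub, io_xp]
  rw [h2, map_mul, map_pow, map_neg, map_one]
  ring

lemma key {r : ℕ} (A : ℤ) (a : Fin r → ℤ) (hA : 0 < A) (ha : ∀ i, a i < A) (ha0 : ∀ i, 0 < a i)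
    (k : ℤ) (hk : A ≤ k) (y : Fin r → ℤ) :
    (alt (Fin.cons A a : Fin (r + 1) → ℤ)).coeff (Fin.cons k y : Fin (r + 1) → ℤ) =
      if k = A then (alt a).coeff y else 0 := by
  rw [alt_expand, AddMonoidAlgebra.coeff_sum, Finsupp.finsetSum_apply, Fin.sum_univ_succ]
  have h1 : ∀ i : Fin r, (xp (0 : Fin (r + 1)) ((Fin.cons A a : Fin (r + 1) → ℤ) i.succ) *
      io r ((-1) ^ ((i.succ : Fin (r + 1)) : ℕ) *
        alt (fun l => (Fin.cons A a : Fin (r + 1) → ℤ) (i.succ.succAbove l))) -
      xp 0 (-(Fin.cons A a : Fin (r + 1) → ℤ) i.succ) *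
      io r ((-1) ^ ((i.succ : Fin (r + 1)) : ℕ) *
        alt (fun l => (Fin.cons A a : Fin (r + 1) → ℤ) (i.succ.succAbove l)))).coeff
      (Fin.cons k y : Fin (r + 1) → ℤ) = 0 := by
    intro i
    have h2 := ha i
    have h3 := ha0 i
    rw [AddMonoidAlgebra.coeff_sub, Finsupp.sub_apply, xp_io_coeff, xp_io_coeff, Fin.cons_succ,
      if_neg (by omega), if_neg (by omega), sub_zero]
  rw [Finset.sum_eq_zero fun i _ => h1 i, add_zero, AddMonoidAlgebra.coeff_sub,
    Finsupp.sub_apply, xp_io_coeff, xp_io_coeff, Fin.cons_zero, if_neg (by omega : ¬ k = -A),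
    sub_zero]
  have h2 : (fun l : Fin r => (Fin.cons A a : Fin (r + 1) → ℤ) ((0 : Fin (r + 1)).succAbove l)) =
      a := by
    funext l
    rw [Fin.succAbove_zero, Fin.cons_succ]
  rw [h2, Fin.val_zero, pow_zero, one_mul]

theorem main : Y494.CC.S_TOP := by
  intro r A a hA ha ha0
  refine ⟨fun k y hk => ?_, fun y => ?_⟩
  · rw [key A a hA ha ha0 k hk.le y, if_neg (by omega)]
  · rw [key A a hA ha ha0 A le_rfl y, if_pos rfl]

end Y494.CC.Top
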