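import Pool.Agent.Y494.CC.Stm

/-!
# Project CC: antisymmetric functions which vanish on the chamber vanish (helper171)
-/

set_option autoImplicit false

namespace Y494.CC.Zero

open Pool.Agent.H471.CG

section

variable {r : ℕ} {h : (Fin r → ℤ) → ℤ}

lemma abs_red (hi : ∀ (i : Fin r) (x : Fin r → ℤ), h (Function.update x i (-x i)) = - h x)
    (x : Fin r → ℤ) (S : Finset (Fin r)) :
    h (fun i => if i ∈ S then |x i| else x i) = 0 → h x = 0 := by
  induction S using Finset.induction_on with
  | empty => intro h0; simpa using h0
  | insert a S ha ih =>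
    intro h0
    apply ih
    rcases le_or_gt 0 (x a) with hx | hx
    · rw [← h0]
      congr 1
      funext i
      by_cases hia : i = a
      · subst hia
        simp [ha, abs_of_nonneg hx]
      · simp [hia]
    · have e : (fun i => if i ∈ insert a S then |x i| else x i) =
          Function.update (fun i => if i ∈ S then |x i| else x i) a
            (-(fun i => if i ∈ S then |x i| else x i) a) := by
        funext i
        by_cases hia : i = a
        · subst hia
          simp [ha, abs_of_neg hx]
        · simp [hia]
      rw [e, hi] at h0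
      exact neg_eq_zero.1 h0

lemma key (hs : ∀ (σ : Equiv.Perm (Fin r)) (x : Fin r → ℤ),
      h (x ∘ σ) = (Equiv.Perm.sign σ : ℤ) * h x)
    (hi : ∀ (i : Fin r) (x : Fin r → ℤ), h (Function.update x i (-x i)) = - h x)
    (h0 : ∀ x, SD x → h x = 0) (x : Fin r → ℤ) : h x = 0 := by
  apply abs_red hi x Finset.univ
  simp only [Finset.mem_univ, if_true]
  set y : Fin r → ℤ := fun i => |x i| with hy
  have hy0 : ∀ i, 0 ≤ y i := fun i => abs_nonneg _
  by_cases h1 : ∃ i, y i = 0
  · obtain ⟨i, hi0⟩ := h1
    have h2 := hi i y
    have e : Function.update y i (-y i) = y := by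
      rw [hi0, neg_zero]
      rw [Function.update_eq_self_iff]
      exact hi0.symm
    rw [e] at h2
    omega
  push Not at h1
  have hpos : ∀ i, 0 < y i := fun i => lt_of_le_of_ne (hy0 i) (Ne.symm (h1 i))
  by_cases hinj : Function.Injective y
  · set τ : Equiv.Perm (Fin r) := Fin.revPerm.trans (Tuple.sort y) with hτ
    have hmono : StrictMono (y ∘ Tuple.sort y) :=
      (Tuple.monotone_sort y).strictMono_of_injective (hinj.comp (Tuple.sort y).injective)
    have hSD : SD (y ∘ τ) := by
      refine ⟨fun i j hij => ?_, fun i => hpos _⟩
      exact hmono (Fin.rev_lt_rev.2 hij)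
    have h2 := h0 _ hSD
    rw [hs] at h2
    rcases mul_eq_zero.1 h2 with h3 | h3
    · exact absurd h3 (Units.ne_zero _)
    · exact h3
  · unfold Function.Injective at hinj
    push Not at hinj
    obtain ⟨i, j, hij, hne⟩ := hinj
    have h2 := hs (Equiv.swap i j) y
    have e : y ∘ (Equiv.swap i j) = y := by
      funext k
      show y (Equiv.swap i j k) = y k
      by_cases hki : k = i
      · subst hki
        rw [Equiv.swap_apply_left]
        exact hij.symm
      · by_cases hkj : k = j
        · subst hkj
          rw [Equiv.swap_apply_right]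
          exact hij
        · rw [Equiv.swap_apply_of_ne_of_ne hki hkj]
    rw [e, Equiv.Perm.sign_swap hne] at h2
    simp at h2
    omega

end

theorem main : Y494.CC.S_ZERO := by
  intro r f hf h0
  apply AddMonoidAlgebra.coeff_injective
  ext x
  have := key (h := fun x => f.coeff x) hf.1 hf.2 h0 x
  simpa using this

end Y494.CC.Zero
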