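import Pool.Agent.Y494.CC.Red
import Pool.Agent.Results.MP_17d326_co.TypeC3

set_option autoImplicit false

/-!
# The counterexamples of type `C_r`, all `r ≥ 3` (relative to the parts)
-/

namespace Y494.CC

open Pool.Agent.H471.CG

/-- the stretched Clebsch-Gordan coefficient of the starting counterexample of type `C_3` -/
def c0 (t : ℕ) : ℤ :=
  St ((t : ℤ) * 3) ((t : ℤ) * 3) ((t : ℤ) * 3) ((t : ℤ) * 3) ((t : ℤ) * 3) ((t : ℤ) * 2)
    ((t : ℤ) * 5) ((t : ℤ) * 3) ((t : ℤ) * 1)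

lemma c0_one : c0 1 = 0 := Pool.Agent.Results.MP_17d326_co.TypeC3.st1

lemma c0_three : c0 3 = 1 := Pool.Agent.Results.MP_17d326_co.TypeC3.st3

/-- the weights of the counterexample -/
def lamW (r : ℕ) : Fin r → ℤ := fun _ => 3
/-- `(3, …, 3, 2)` -/
def muW (r : ℕ) : Fin r → ℤ := fun i => if (i : ℕ) + 1 = r then 2 else 3
/-- `(6, …, 6, 5, 3, 1)` -/
def nuW (r : ℕ) : Fin r → ℤ := fun i => if (i : ℕ) + 1 = r then 1 else if (i : ℕ) + 2 = r then 3
  else if (i : ℕ) + 3 = r then 5 else 6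

lemma smul_dominant {r : ℕ} {κ : Fin r → ℤ} (h : Dominant κ) (t : ℕ) : Dominant ((t : ℤ) • κ) :=
  ⟨fun i j hij => by
    simp only [Pi.smul_apply, smul_eq_mul]
    exact mul_le_mul_of_nonneg_left (h.1 i j hij) (Int.natCast_nonneg t),
   fun i => by
    simp only [Pi.smul_apply, smul_eq_mul]
    exact mul_nonneg (Int.natCast_nonneg t) (h.2 i)⟩

lemma dom_lam (r : ℕ) : Dominant (lamW r) := ⟨fun _ _ _ => le_rfl, fun _ => by norm_num [lamW]⟩

lemma dom_mu (r : ℕ) : Dominant (muW r) := by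
  refine ⟨fun i j hij => ?_, fun i => ?_⟩
  · have hij' : (i : ℕ) ≤ j := hij
    have := j.2
    simp only [muW]
    split_ifs <;> omega
  · simp only [muW]
    split_ifs <;> omega

lemma dom_nu (r : ℕ) : Dominant (nuW r) := by
  refine ⟨fun i j hij => ?_, fun i => ?_⟩
  · have hij' : (i : ℕ) ≤ j := hij
    have := j.2
    simp only [nuW]
    split_ifs <;> omega
  · simp only [nuW]
    split_ifs <;> omega

lemma lam_succ (r : ℕ) : lamW (r + 1) = (Fin.cons 3 (lamW r) : Fin (r + 1) → ℤ) := by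
  funext i
  refine Fin.cases ?_ (fun j => ?_) i <;> simp [lamW]

lemma mu_succ (r : ℕ) (hr : 1 ≤ r) : muW (r + 1) = (Fin.cons 3 (muW r) : Fin (r + 1) → ℤ) := by
  funext i
  refine Fin.cases ?_ (fun j => ?_) i
  · simp [muW]; omega
  · simp [muW]

lemma nu_succ (r : ℕ) (hr : 3 ≤ r) : nuW (r + 1) = (Fin.cons 6 (nuW r) : Fin (r + 1) → ℤ) := by
  funext i
  refine Fin.cases ?_ (fun j => ?_) i
  · simp only [nuW, Fin.cons_zero, Fin.val_zero]
    split_ifs <;> omega
  · simp only [nuW, Fin.cons_succ, Fin.val_succ]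
    have := j.2
    split_ifs <;> omega

lemma smul_cons {r : ℕ} (t A : ℤ) (a : Fin r → ℤ) :
    t • (Fin.cons A a : Fin (r + 1) → ℤ) = (Fin.cons (t * A) (t • a) : Fin (r + 1) → ℤ) := by
  funext i
  refine Fin.cases ?_ (fun j => ?_) i <;> simp

section

variable (hC : S_COEF) (hD : S_DIV) (hA : S_ANTI) (hZ : S_ZERO) (hT : S_TOP) (hM : S_MUL)

include hC hD hA hZ hT hM in
theorem cg_all (t : ℕ) : ∀ r : ℕ, 3 ≤ r →
    cg ((t : ℤ) • lamW r) ((t : ℤ) • muW r) ((t : ℤ) • nuW r) = c0 t := by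
  intro r hr
  induction r, hr using Nat.le_induction with
  | base =>
    have h1 := (isCG_iff hC hD hA hZ _ _ _ (smul_dominant (dom_lam 3) t)
      (smul_dominant (dom_mu 3) t) (smul_dominant (dom_nu 3) t) _).2 rfl
    have h2 := (Pool.Agent.H471.CG.isCG_iff _ _ _ (smul_dominant (dom_lam 3) t)
      (smul_dominant (dom_mu 3) t) (smul_dominant (dom_nu 3) t) _).1 h1
    rw [h2]
    simp [c0, lamW, muW, nuW]
  | succ r hr ih =>
    have ht : (0 : ℤ) ≤ t := Int.natCast_nonneg t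
    rw [lam_succ, mu_succ r (by omega), nu_succ r hr, smul_cons, smul_cons, smul_cons, ← ih]
    have e : (t : ℤ) * 6 = (t : ℤ) * 3 + (t : ℤ) * 3 := by ring
    rw [e]
    refine cg_cons hC hD hT hM _ _ _ _ _ (smul_dominant (dom_lam r) t)
      (smul_dominant (dom_mu r) t) (fun i => ?_) (by positivity) (fun i => ?_) (by positivity)
    · simp [lamW]
    · simp only [muW, Pi.smul_apply, smul_eq_mul]
      apply mul_le_mul_of_nonneg_left _ ht
      split_ifs <;> omega

end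

end Y494.CC
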