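import Pool.Agent.Y494.CC.Stm

set_option autoImplicit false

/-!
# Clebsch-Gordan coefficients of type `C_r`, general rank: existence and uniqueness
(relative to the parts `S_DIV, S_COEF, S_ANTI, S_ZERO`)
-/

namespace Y494.CC

open Pool.Agent.H471.CG

variable {r : ℕ}

lemma rho_apply (i : Fin r) : rho r i = (r : ℤ) - (i : ℕ) := rfl

lemma rho_pos (i : Fin r) : 0 < rho r i := by
  have := i.2
  rw [rho_apply]
  omega

lemma sd_rho : SD (rho r) := by
  refine ⟨fun i j h => ?_, rho_pos⟩
  rw [rho_apply, rho_apply]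
  have : (i : ℕ) < (j : ℕ) := h
  omega

lemma sd_add_rho (κ : Fin r → ℤ) (h : Dominant κ) : SD (κ + rho r) := by
  refine ⟨fun i j hij => ?_, fun i => ?_⟩
  · have h1 := h.1 i j hij.le
    have h2 := sd_rho.1 i j hij
    simp only [Pi.add_apply]
    omega
  · have h1 := h.2 i
    have h2 := rho_pos i
    simp only [Pi.add_apply]
    omega

lemma sd_gap {a : Fin r → ℤ} (h : SD a) : ∀ (d : ℕ) (i j : Fin r), (j : ℕ) = i + d →
    a j + d ≤ a i := by
  intro d
  induction d with
  | zero =>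
    intro i j hij
    have : i = j := Fin.ext (by omega)
    rw [this]
    simp
  | succ d ih =>
    intro i j hij
    have hk : (i : ℕ) + d < r := by have := j.2; omega
    have h1 := ih i ⟨i + d, hk⟩ rfl
    have h2 := h.1 ⟨i + d, hk⟩ j (by rw [Fin.lt_def]; simp only; omega)
    push_cast
    omega

lemma dominant_of_sd (a : Fin r → ℤ) (h : SD a) : Dominant (a - rho r) := by
  refine ⟨fun i j hij => ?_, fun i => ?_⟩
  · have hij' : (i : ℕ) ≤ j := hij
    have h1 := sd_gap h (j - i : ℕ) i j (by omega)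
    simp only [Pi.sub_apply, rho_apply]
    omega
  · have hi := i.2
    have h1 := sd_gap h (r - 1 - i : ℕ) i ⟨r - 1, by omega⟩ (by simp only; omega)
    have h2 := h.2 ⟨r - 1, by omega⟩
    simp only [Pi.sub_apply, rho_apply]
    omega

section

variable (hC : S_COEF)

include hC

lemma alt_ne {a : Fin r → ℤ} (ha : SD a) : alt a ≠ 0 := by
  intro h
  have h2 := hC r a a ha ha
  rw [h] at h2
  simp at h2

lemma sum_coeff (m : (Fin r → ℤ) →₀ ℤ) (hd : ∀ κ ∈ m.support, Dominant κ) (x : Fin r → ℤ)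
    (hx : SD x) : (m.sum fun κ n => n • alt (κ + rho r)).coeff x = m (x - rho r) := by
  unfold Finsupp.sum
  rw [AddMonoidAlgebra.coeff_sum, Finsupp.finsetSum_apply]
  have e6 : ∀ κ ∈ m.support, (m κ • alt (κ + rho r)).coeff x =
      if κ = x - rho r then m κ else 0 := by
    intro κ hκ
    rw [AddMonoidAlgebra.coeff_smul_apply, hC _ _ _ (sd_add_rho κ (hd κ hκ)) hx]
    by_cases hκν : κ = x - rho r
    · rw [if_pos hκν, if_pos (by rw [hκν]; simp)]; simp
    · rw [if_neg hκν, if_neg (fun h => hκν (eq_sub_of_add_eq h))]; simp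
  rw [Finset.sum_congr rfl e6, Finset.sum_ite_eq']
  split_ifs with hs
  · rfl
  · exact (Finsupp.notMem_support_iff.mp hs).symm

end

lemma AS_sub (f g : CharRing r) (hf : AS f) (hg : AS g) : AS (f - g) := by
  refine ⟨fun σ x => ?_, fun i x => ?_⟩
  · simp only [AddMonoidAlgebra.coeff_sub, Finsupp.sub_apply, hf.1 σ x, hg.1 σ x]; ring
  · simp only [AddMonoidAlgebra.coeff_sub, Finsupp.sub_apply, hf.2 i x, hg.2 i x]; ring

lemma AS_sum {ι : Type*} (s : Finset ι) (f : ι → CharRing r) (h : ∀ i ∈ s, AS (f i)) :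
    AS (∑ i ∈ s, f i) := by
  refine ⟨fun σ x => ?_, fun k x => ?_⟩
  · simp only [AddMonoidAlgebra.coeff_sum, Finsupp.finsetSum_apply]
    rw [Finset.mul_sum]
    exact Finset.sum_congr rfl fun i hi => (h i hi).1 σ x
  · simp only [AddMonoidAlgebra.coeff_sum, Finsupp.finsetSum_apply]
    rw [← Finset.sum_neg_distrib]
    exact Finset.sum_congr rfl fun i hi => (h i hi).2 k x

lemma AS_smul (n : ℤ) (f : CharRing r) (hf : AS f) : AS (n • f) := by
  refine ⟨fun σ x => ?_, fun i x => ?_⟩
  · simp only [AddMonoidAlgebra.coeff_smul_apply, hf.1 σ x, smul_eq_mul]; ring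
  · simp only [AddMonoidAlgebra.coeff_smul_apply, hf.2 i x, smul_neg]

section

variable (hC : S_COEF) (hD : S_DIV) (hA : S_ANTI) (hZ : S_ZERO)

include hC hA hZ in
lemma exists_decomp (f : CharRing r) (hf : AS f) : ∃ m : (Fin r → ℤ) →₀ ℤ,
    (∀ κ ∈ m.support, Dominant κ) ∧ f = m.sum (fun κ n => n • alt (κ + rho r)) := by
  classical
  let m : (Fin r → ℤ) →₀ ℤ :=
    (Finsupp.mapDomain (fun x => x - rho r) f.coeff).filter Dominant
  have hd : ∀ κ ∈ m.support, Dominant κ := by
    intro κ hκ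
    rw [Finsupp.support_filter, Finset.mem_filter] at hκ
    exact hκ.2
  refine ⟨m, hd, ?_⟩
  have hAS : AS (f - m.sum (fun κ n => n • alt (κ + rho r))) := by
    apply AS_sub _ _ hf
    unfold Finsupp.sum
    exact AS_sum _ _ fun κ _ => AS_smul _ _
      (hA r _ (κ + rho r) (rho r) (alt_ne hC sd_rho) rfl)
  have h0 := hZ r _ hAS (fun x hx => by
    rw [AddMonoidAlgebra.coeff_sub, Finsupp.sub_apply, sum_coeff hC m hd x hx]
    have h1 : m (x - rho r) = f.coeff x := by
      rw [Finsupp.filter_apply_pos _ _ (dominant_of_sd x hx)]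
      exact Finsupp.mapDomain_apply (sub_left_injective (b := rho r)) _ _
    rw [h1, sub_self])
  exact sub_eq_zero.mp h0

include hD in
lemma exists_irr (κ : Fin r → ℤ) (h : Dominant κ) : ∃ χ, IsIrrChar κ χ := by
  have h1 := sd_add_rho κ h
  obtain ⟨c, hc⟩ := hD r (fun i => ((κ + rho r) i).toNat)
  have e : (fun i => (((κ + rho r) i).toNat : ℤ)) = κ + rho r := by
    funext i
    exact Int.toNat_of_nonneg (h1.2 i).le
  rw [e] at hc
  exact ⟨c, by unfold IsIrrChar; rw [hc]; ring⟩

open Classical in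
/-- the irreducible character of highest weight `κ` -/
noncomputable def irr (κ : Fin r → ℤ) : CharRing r :=
  if h : ∃ χ, IsIrrChar κ χ then h.choose else 0

include hD in
lemma irr_spec (κ : Fin r → ℤ) (h : Dominant κ) : IsIrrChar κ (irr κ) := by
  have h1 := exists_irr hD κ h
  unfold irr
  rw [dif_pos h1]
  exact h1.choose_spec

include hC in
lemma irr_unique (κ : Fin r → ℤ) (χ χ' : CharRing r) (h : IsIrrChar κ χ) (h' : IsIrrChar κ χ') :
    χ = χ' := by
  apply mul_right_cancel₀ (alt_ne hC (sd_rho (r := r)))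
  unfold IsIrrChar at h h'
  rw [h, h']

/-- the Clebsch-Gordan coefficient as a coefficient of `χ_lam · A_{mu+ρ}` -/
noncomputable def cg (lam mu nu : Fin r → ℤ) : ℤ := (irr lam * alt (mu + rho r)).coeff (nu + rho r)

include hC hD hA hZ in
theorem isCG_iff (lam mu nu : Fin r → ℤ) (hl : Dominant lam) (hm : Dominant mu)
    (hn : Dominant nu) (x : ℤ) : IsCG lam mu nu x ↔ x = cg lam mu nu := by
  have key : ∀ (χ : (Fin r → ℤ) → CharRing r) (m : (Fin r → ℤ) →₀ ℤ),
      (∀ κ, Dominant κ → IsIrrChar κ (χ κ)) → (∀ κ ∈ m.support, Dominant κ) →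
      (χ lam * χ mu = m.sum (fun κ n => n • χ κ) ↔
        irr lam * alt (mu + rho r) = m.sum (fun κ n => n • alt (κ + rho r))) := by
    intro χ m h1 h2
    have e1 : χ lam = irr lam := irr_unique hC lam _ _ (h1 lam hl) (irr_spec hD lam hl)
    have e2 : χ mu * alt (rho r) = alt (mu + rho r) := h1 mu hm
    have e3 : m.sum (fun κ n => n • χ κ) * alt (rho r) =
        m.sum (fun κ n => n • alt (κ + rho r)) := by
      unfold Finsupp.sum
      rw [Finset.sum_mul]
      apply Finset.sum_congr rfl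
      intro κ hκ
      have h3 : χ κ * alt (rho r) = alt (κ + rho r) := h1 κ (h2 κ hκ)
      rw [smul_mul_assoc, h3]
    constructor
    · intro h
      rw [← e1, ← e2, ← mul_assoc, h, e3]
    · intro h
      apply mul_right_cancel₀ (alt_ne hC (sd_rho (r := r)))
      rw [mul_assoc, e2, e1, h, e3]
  have coef : ∀ (m : (Fin r → ℤ) →₀ ℤ), (∀ κ ∈ m.support, Dominant κ) →
      irr lam * alt (mu + rho r) = m.sum (fun κ n => n • alt (κ + rho r)) → m nu = cg lam mu nu := by
    intro m hd h
    unfold cg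
    rw [h, sum_coeff hC m hd _ (sd_add_rho nu hn), add_sub_cancel_right]
  constructor
  · rintro ⟨χ, m, h1, h2, h3, rfl⟩
    exact coef m h2 ((key χ m h1 h2).1 h3)
  · rintro rfl
    have hf : (irr lam * alt (mu + rho r)) * alt (rho r) =
        alt (lam + rho r) * alt (mu + rho r) := by
      have h1 : irr lam * alt (rho r) = alt (lam + rho r) := irr_spec hD lam hl
      rw [← h1]; ring
    obtain ⟨m, hd, hm'⟩ := exists_decomp hC hA hZ _ (hA r _ _ _ (alt_ne hC sd_rho) hf)
    refine ⟨irr, m, fun κ hκ => irr_spec hD κ hκ, hd, ?_, coef m hd hm'⟩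
    exact (key irr m (fun κ hκ => irr_spec hD κ hκ) hd).2 hm'

end

end Y494.CC
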