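import Pool.Agent.Y494.CC.Gen

set_option autoImplicit false

/-!
# Clebsch-Gordan coefficients of type `C_{r+1}` with extremal first coordinate
(relative to the parts `S_DIV, S_COEF, S_TOP, S_MUL`)
-/

namespace Y494.CC

open Pool.Agent.H471.CG

variable {r : ℕ}

lemma rho_succ : rho (r + 1) = (Fin.cons ((r : ℤ) + 1) (rho r) : Fin (r + 1) → ℤ) := by
  funext i
  refine Fin.cases ?_ (fun j => ?_) i
  · simp [rho_apply]
  · simp [rho_apply]

lemma cons_add_rho (A : ℤ) (a : Fin r → ℤ) :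
    (Fin.cons A a : Fin (r + 1) → ℤ) + rho (r + 1) =
      (Fin.cons (A + ((r : ℤ) + 1)) (a + rho r) : Fin (r + 1) → ℤ) := by
  rw [rho_succ]
  funext i
  refine Fin.cases ?_ (fun j => ?_) i
  · simp
  · simp

lemma dominant_cons {A : ℤ} {a : Fin r → ℤ} (h : Dominant a) (hA : ∀ i, a i ≤ A) (hA0 : 0 ≤ A) :
    Dominant (Fin.cons A a : Fin (r + 1) → ℤ) := by
  constructor
  · intro i j
    refine Fin.cases ?_ (fun i => ?_) i <;> refine Fin.cases ?_ (fun j => ?_) j
    · simp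
    · intro _
      simpa using hA j
    · intro hij
      exact absurd hij (by simp)
    · intro hij
      simpa using h.1 i j (by simpa using hij)
  · intro i
    refine Fin.cases ?_ (fun i => ?_) i
    · simpa using hA0
    · simpa using h.2 i

/-- the part of `f` with first exponent `k` -/
noncomputable def slice (k : ℤ) (f : CharRing (r + 1)) : CharRing r :=
  AddMonoidAlgebra.ofCoeff (Finsupp.comapDomain (fun y : Fin r → ℤ => (Fin.cons k y : Fin (r + 1) → ℤ))
    f.coeff (fun _ _ _ _ h => Fin.cons_right_injective (α := fun _ : Fin (r + 1) => ℤ) k h))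

lemma slice_coeff (k : ℤ) (f : CharRing (r + 1)) (y : Fin r → ℤ) :
    (slice k f).coeff y = f.coeff (Fin.cons k y : Fin (r + 1) → ℤ) := rfl

lemma exists_top {f : CharRing (r + 1)} (hf : f ≠ 0) : ∃ d : ℤ, slice d f ≠ 0 ∧
    ∀ (k : ℤ) (y : Fin r → ℤ), d < k → f.coeff (Fin.cons k y : Fin (r + 1) → ℤ) = 0 := by
  classical
  have hs : f.coeff.support.Nonempty := by
    rw [Finsupp.support_nonempty_iff]
    intro h
    exact hf (AddMonoidAlgebra.coeff_injective h)
  obtain ⟨x, hx, hmax⟩ := f.coeff.support.exists_max_image (fun x => x 0) hs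
  refine ⟨x 0, ?_, ?_⟩
  · intro h
    have h1 : (slice (x 0) f).coeff (Fin.tail x) = 0 := by rw [h]; rfl
    rw [slice_coeff, Fin.cons_self_tail] at h1
    exact (Finsupp.mem_support_iff.1 hx) h1
  · intro k y hk
    by_contra h
    have h1 := hmax _ (Finsupp.mem_support_iff.2 h)
    simp only [Fin.cons_zero] at h1
    omega

section

variable (hC : S_COEF) (hD : S_DIV) (hT : S_TOP) (hM : S_MUL)

include hC hD hT hM in
/-- the leading part of an irreducible character -/
lemma irr_top (A : ℤ) (lam : Fin r → ℤ) (hl : Dominant lam) (hA : ∀ i, lam i ≤ A) (hA0 : 0 ≤ A) :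
    (∀ (k : ℤ) (y : Fin r → ℤ), A < k →
      (irr (Fin.cons A lam : Fin (r + 1) → ℤ)).coeff (Fin.cons k y : Fin (r + 1) → ℤ) = 0) ∧
    ∀ y : Fin r → ℤ, (irr (Fin.cons A lam : Fin (r + 1) → ℤ)).coeff
      (Fin.cons A y : Fin (r + 1) → ℤ) = (irr lam).coeff y := by
  have hdom := dominant_cons hl hA hA0
  set χ := irr (Fin.cons A lam : Fin (r + 1) → ℤ) with hχ
  have h1 : χ * alt (rho (r + 1)) = alt ((Fin.cons A lam : Fin (r + 1) → ℤ) + rho (r + 1)) :=
    irr_spec hD _ hdom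
  have h2 : irr lam * alt (rho r) = alt (lam + rho r) := irr_spec hD _ hl
  obtain ⟨t1, t2⟩ := hT r ((r : ℤ) + 1) (rho r) (by positivity)
    (fun i => by rw [rho_apply]; omega) rho_pos
  obtain ⟨s1, s2⟩ := hT r (A + ((r : ℤ) + 1)) (lam + rho r) (by positivity)
    (fun i => by have := hA i; simp only [Pi.add_apply, rho_apply]; omega)
    (sd_add_rho lam hl).2
  rw [← rho_succ] at t1 t2
  rw [← cons_add_rho, ← h1] at s1 s2
  have hne : χ ≠ 0 := by
    intro h
    rw [h, zero_mul] at h1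
    exact alt_ne hC (sd_add_rho _ hdom) h1.symm
  obtain ⟨d, d1, d2⟩ := exists_top hne
  have hdA : d ≤ A := by
    by_contra hlt
    push Not at hlt
    obtain ⟨-, m2⟩ := hM r χ (alt (rho (r + 1))) (slice d χ) (alt (rho r)) d ((r : ℤ) + 1)
      d2 t1 (fun y => (slice_coeff d χ y).symm) t2
    apply mul_ne_zero d1 (alt_ne hC (sd_rho (r := r)))
    apply AddMonoidAlgebra.coeff_injective
    ext y
    rw [← m2 y, s1 _ _ (by linarith)]
    rfl
  have d3 : ∀ (k : ℤ) (y : Fin r → ℤ), A < k → χ.coeff (Fin.cons k y : Fin (r + 1) → ℤ) = 0 :=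
    fun k y hk => d2 k y (lt_of_le_of_lt hdA hk)
  refine ⟨d3, fun y => ?_⟩
  obtain ⟨-, m2⟩ := hM r χ (alt (rho (r + 1))) (slice A χ) (alt (rho r)) A ((r : ℤ) + 1)
      d3 t1 (fun y => (slice_coeff A χ y).symm) t2
  have h3 : slice A χ = irr lam := by
    apply mul_right_cancel₀ (alt_ne hC (sd_rho (r := r)))
    rw [h2]
    apply AddMonoidAlgebra.coeff_injective
    ext y
    rw [← m2 y, s2 y]
  rw [← slice_coeff, h3]

include hC hD hT hM in
theorem cg_cons (A B : ℤ) (lam mu nu : Fin r → ℤ) (hl : Dominant lam) (hm : Dominant mu)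
    (hA : ∀ i, lam i ≤ A) (hA0 : 0 ≤ A) (hB : ∀ i, mu i ≤ B) (hB0 : 0 ≤ B) :
    cg (Fin.cons A lam : Fin (r + 1) → ℤ) (Fin.cons B mu) (Fin.cons (A + B) nu) =
      cg lam mu nu := by
  obtain ⟨c1, c2⟩ := irr_top hC hD hT hM A lam hl hA hA0
  obtain ⟨s1, s2⟩ := hT r (B + ((r : ℤ) + 1)) (mu + rho r) (by positivity)
    (fun i => by have := hB i; simp only [Pi.add_apply, rho_apply]; omega)
    (sd_add_rho mu hm).2
  obtain ⟨-, m2⟩ := hM r _ _ _ _ A (B + ((r : ℤ) + 1)) c1 s1 c2 s2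
  unfold cg
  rw [← m2, cons_add_rho, cons_add_rho, add_assoc]

end

end Y494.CC
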